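import Pool.Agent.R217.KM.Con5

set_option autoImplicit false

/-!
# MP_804706_an, Q1: property (M) below the threshold `C_1(N)`

Critical Kirchhoff problem with the functional
`E_v(u) = a/2 |∇u|² + b/4 |∇u|⁴ - 1/2* ∫ |u|^{2*} - λ/2 ∫ (u - v)²` on `H_0^1(Ω)`.

Answer: yes. Property (M) holds for every `N ≥ 5`, every nonempty bounded open set `Ω ⊆ ℝ^N`,
every `a ≥ 0` and every `b > 0`; there is no condition on `a^{(N-4)/2} b` (so the range
`a^{(N-4)/2} b < C_1(N)` is covered).

The definitions are in `Pool/Agent/R217/KM/Con5.lean` and `Pool/Agent/R217/BN/Defs.lean`: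
* `H01 Ω u U` says that `u ∈ H_0^1(Ω)` (extended by zero) and `U = ∇u`: `u, U ∈ L²` and `(u, U)` is
  the limit in `L² × L²` of pairs `(φ, ∇φ)` with `φ` smooth with compact support in `Ω`;
* `cexp n = 2n/(n-2)`;
* `gradSq`, `critInt`, `distSq`, `gradPair`, `critPair`, `diffPair` are the integrals over `Ω` of
  `|∇u|²`, `|u|^{2*}`, `(u - v)²`, `∇u · ∇w`, `|u|^{2*-2} u w`, `(u - v) w`;
* `energy`, `GlobalMin`, `WeakSol` are the functional `E_v`, its global minimizers on `H_0^1(Ω)`
  and the weak solutions of `(P_{λ,v})`;
* `L2O Ω` is `L²(Ω)`, `CoversH Ω C` says that the closure of `C` in `L²(Ω)` contains `H_0^1(Ω)`,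
  `Differ` is being different in `L²(Ω)`, `ThreeSol Ω a b lam v` says that there are three different
  weak solutions two of which are global minimizers (`MinSol`);
* `PropM Ω a b` is property (M).

Idea of the proof.  For large `λ` the levels which matter are below a constant which depends only
on `a, b, N`, uniformly in `v` (after adding `λ/2 |v|²`).  A Palais-Smale sequence at such a level
has `|∇u_k|²` above a constant beyond which `a + b |∇u|²` dominates the critical term, so that it
converges strongly.  Hence global minimizers exist for all `v`; a minimax argument on finite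
dimensional simplices in `C` gives a `v*` with two global minimizers, and a mountain pass argument
(with an explicit path at a low level) gives the third solution.
-/

open MeasureTheory Filter Topology
open Pool.Agent.R217.BN (E cexp H01)
open Pool.Agent.R217.KM (PropM)

namespace Pool.Agent.Results.MP_804706_an.ThreeSolutions

/-- Property (M) holds for all `a ≥ 0`, `b > 0` in every dimension `n > 4` and for every nonempty
bounded open set `Ω`. -/
theorem result {n : ℕ} (hn : 4 < n) {Ω : Set (E n)} (hO : IsOpen Ω) (hne : Ω.Nonempty)
    (hb : Bornology.IsBounded Ω) {a b : ℝ} (ha : 0 ≤ a) (hb0 : 0 < b) : PropM Ω a b :=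
  Pool.Agent.R217.KM.main hn hO hne hb ha hb0

end Pool.Agent.Results.MP_804706_an.ThreeSolutions
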